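import Pool.Agent.Helper26.Er.Defs

/-! # Package E2b: the Helmholtz equation from the mean value property -/

set_option autoImplicit false
set_option linter.unusedSectionVars false
open MeasureTheory Filter Topology ProbabilityTheory
open scoped ContDiff ENNReal InnerProductSpace

namespace Pool.Agent.Helper38.Er

open Pool.Agent.W745.RW (lap dx dy)
open Pool.Agent.N661.BR (MW J0 IsStationary)
open Pool.Agent.Helper37.BC
open Pool.Agent.Helper26.Ip
open Complex (I)

noncomputable section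

theorem zero_deriv {g g' : ℝ → ℝ} (h : ∀ r, HasDerivAt g (g' r) r)
    (h0 : ∀ r, 0 ≤ r → g r = 0) : ∀ r, 0 ≤ r → g' r = 0 := by
  intro r hr
  have h1 := (h r).hasDerivWithinAt (s := Set.Ici 0)
  have h2 : HasDerivWithinAt g 0 (Set.Ici 0) r :=
    (hasDerivWithinAt_const r (Set.Ici 0) (0 : ℝ)).congr (fun x hx => h0 x hx) (h0 r hr)
  exact (uniqueDiffOn_Ici (0 : ℝ) r hr).eq_deriv _ h1 h2

theorem AA2_zero {f : ℂ → ℝ} (hf : ContDiff ℝ ∞ f) (z : ℂ) : AA2 f z 0 = Real.pi * lap f z := by
  rw [lap_D2 hf]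
  unfold AA2
  have h1 : ∀ θ : ℝ, D2 f (z + ((0 : ℝ) : ℂ) * ee θ) (ee θ) (ee θ) =
      D2 f z 1 1 * Real.cos θ ^ 2 + D2 f z I I * Real.sin θ ^ 2 +
        (D2 f z 1 I + D2 f z I 1) * (Real.sin θ * Real.cos θ) := by
    intro θ
    have he : ee θ = Real.cos θ • (1 : ℂ) + Real.sin θ • I := by unfold ee; simp
    have hz : z + ((0 : ℝ) : ℂ) * ee θ = z := by simp
    rw [hz, he]
    simp only [map_add, map_smul, add_apply, smul_apply, smul_eq_mul]
    ring
  simp_rw [h1]
  have c1 : Continuous fun θ : ℝ => D2 f z 1 1 * Real.cos θ ^ 2 := by fun_prop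
  have c2 : Continuous fun θ : ℝ => D2 f z I I * Real.sin θ ^ 2 := by fun_prop
  have c3 : Continuous fun θ : ℝ => (D2 f z 1 I + D2 f z I 1) * (Real.sin θ * Real.cos θ) := by
    fun_prop
  have c12 : Continuous fun θ : ℝ => D2 f z 1 1 * Real.cos θ ^ 2 + D2 f z I I * Real.sin θ ^ 2 :=
    c1.add c2
  rw [intervalIntegral.integral_add (c12.intervalIntegrable _ _)
    (c3.intervalIntegrable _ _), intervalIntegral.integral_add (c1.intervalIntegrable _ _)
    (c2.intervalIntegrable _ _), intervalIntegral.integral_const_mul,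
    intervalIntegral.integral_const_mul, intervalIntegral.integral_const_mul, integral_cos_sq,
    integral_sin_sq, integral_sin_mul_cos₁]
  simp
  ring

theorem J0''_zero : J0'' 0 = -(1 / 2) := by
  unfold J0''
  rw [AA2_zero wave_smooth]
  have h := wave_eq 0
  rw [Complex.zero_re, Real.cos_zero] at h
  have h1 : lap (fun y : ℂ => Real.cos y.re) 0 = -1 := by linarith
  rw [h1]
  have := Real.pi_ne_zero
  field_simp

/-- E2b -/
theorem lap_of_mean {u : ℂ → ℝ} (hu : ContDiff ℝ ∞ u) (hm : MeanValue u) (z : ℂ) :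
    lap u z = - u z := by
  have h0 : ∀ r, 0 ≤ r → AA u z r - 2 * Real.pi * u z * J0 r = 0 := by
    intro r hr
    have h1 : AA u z r = 2 * Real.pi * J0 r * u z := hm z r hr
    rw [h1]
    ring
  have h1 := zero_deriv (g := fun r => AA u z r - 2 * Real.pi * u z * J0 r)
    (g' := fun r => AA1 u z r - 2 * Real.pi * u z * J0' r)
    (fun r => (AA_deriv hu z r).sub ((J0_deriv r).const_mul _)) h0
  have h2 := zero_deriv (g := fun r => AA1 u z r - 2 * Real.pi * u z * J0' r)
    (g' := fun r => AA2 u z r - 2 * Real.pi * u z * J0'' r)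
    (fun r => (AA1_deriv hu z r).sub ((J0'_deriv r).const_mul _)) h1
  have h3 : AA2 u z 0 - 2 * Real.pi * u z * J0'' 0 = 0 := h2 0 le_rfl
  rw [AA2_zero hu, J0''_zero] at h3
  have h4 : Real.pi * (lap u z + u z) = 0 := by linarith
  rcases mul_eq_zero.1 h4 with h5 | h5
  · exact absurd h5 Real.pi_ne_zero
  · linarith

end

end Pool.Agent.Helper38.Er
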