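import Pool.Agent.Helper26.Er.Defs
import Pool.Agent.Helper26.Ip.Core
import Pool.Agent.Helper88.Ip.J0

/-! # Package E9e: infinite dimension -/

set_option autoImplicit false
set_option linter.unusedSectionVars false
open MeasureTheory Filter Topology ProbabilityTheory
open scoped ContDiff ENNReal InnerProductSpace

namespace Pool.Agent.Helper38.Er

open Pool.Agent.N661.BR (MW J0 IsStationary)
open Pool.Agent.Helper26.Ip
open Pool.Agent.Helper26.Er
open Complex (I)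

noncomputable section

variable {μ : Measure MW} [IsProbabilityMeasure μ]

theorem J0_zero : J0 0 = 1 := by
  unfold J0
  simp only [zero_mul, Real.cos_zero, intervalIntegral.integral_const, sub_zero, smul_eq_mul,
    mul_one]
  exact one_div_mul_cancel (by positivity)

theorem inner_V (hs : IsStationary μ) (h2 : Integrable (fun f : MW => f 0 ^ 2) μ)
    (hcov : ∀ w w' : ℂ, ∫ f : MW, f w * f w' ∂μ = J0 ‖w - w'‖) (x y : ℂ) :
    ⟪V hs h2 x, V hs h2 y⟫_ℝ = J0 ‖x - y‖ := by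
  rw [← inner_int, ← hcov]
  refine integral_congr_ae ?_
  filter_upwards [V_coe hs h2 x, V_coe hs h2 y] with f h1 h2
  rw [h1, h2]

/-- vectors with a Gram matrix near the identity are independent -/
theorem indep_of_gram {E : Type*} [NormedAddCommGroup E] [InnerProductSpace ℝ E] {N : ℕ}
    (v : Fin N → E) (h1 : ∀ i, ⟪v i, v i⟫_ℝ = 1)
    (h2 : ∀ i j, i ≠ j → |⟪v i, v j⟫_ℝ| ≤ 1 / (2 * N)) : LinearIndependent ℝ v := by
  rw [Fintype.linearIndependent_iff]
  intro t ht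
  rcases Nat.eq_zero_or_pos N with hN | hN
  · subst hN
    intro i
    exact i.elim0
  have : Nonempty (Fin N) := ⟨⟨0, hN⟩⟩
  obtain ⟨i0, hi0⟩ := Finite.exists_max fun i => |t i|
  have h3 : ⟪v i0, ∑ i, t i • v i⟫_ℝ = 0 := by rw [ht, inner_zero_right]
  rw [inner_sum] at h3
  simp only [real_inner_smul_right] at h3
  rw [← Finset.add_sum_erase _ _ (Finset.mem_univ i0), h1, mul_one] at h3
  have h4 : |∑ i ∈ Finset.univ.erase i0, t i * ⟪v i0, v i⟫_ℝ| ≤
      ∑ _i ∈ Finset.univ.erase i0, |t i0| * (1 / (2 * N)) := by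
    refine (Finset.abs_sum_le_sum_abs _ _).trans (Finset.sum_le_sum fun i hi => ?_)
    rw [abs_mul]
    exact mul_le_mul (hi0 i) (h2 _ _ (Finset.ne_of_mem_erase hi).symm) (abs_nonneg _)
      (abs_nonneg _)
  rw [Finset.sum_const, Finset.card_erase_of_mem (Finset.mem_univ _), Finset.card_univ,
    Fintype.card_fin, nsmul_eq_mul] at h4
  have h5 : ((N - 1 : ℕ) : ℝ) * (|t i0| * (1 / (2 * N))) ≤ |t i0| / 2 := by
    have hN' : (0 : ℝ) < N := by exact_mod_cast hN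
    have h6 : ((N - 1 : ℕ) : ℝ) ≤ N := by exact_mod_cast Nat.sub_le N 1
    calc ((N - 1 : ℕ) : ℝ) * (|t i0| * (1 / (2 * N)))
        ≤ N * (|t i0| * (1 / (2 * N))) := by
          refine mul_le_mul_of_nonneg_right h6 ?_
          positivity
      _ = |t i0| / 2 := by field_simp
  have h6 : |t i0| ≤ |t i0| / 2 := by
    have h7 : t i0 = -∑ i ∈ Finset.univ.erase i0, t i * ⟪v i0, v i⟫_ℝ := by linarith
    have h8 : |t i0| = |∑ i ∈ Finset.univ.erase i0, t i * ⟪v i0, v i⟫_ℝ| := by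
      conv_lhs => rw [h7]
      rw [abs_neg]
    calc |t i0| = |∑ i ∈ Finset.univ.erase i0, t i * ⟪v i0, v i⟫_ℝ| := h8
      _ ≤ _ := h4
      _ ≤ _ := h5
  have h9 : |t i0| = 0 := le_antisymm (by linarith) (abs_nonneg _)
  intro i
  exact abs_eq_zero.1 (le_antisymm ((hi0 i).trans h9.le) (abs_nonneg _))

/-- an orthonormal family in a hyperplane of the span of `n + 1` independent vectors -/
theorem exists_family {E : Type*} [NormedAddCommGroup E] [InnerProductSpace ℝ E]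
    (H : Submodule ℝ E) (n : ℕ) (v : Fin (n + 1) → E) (hv : ∀ i, v i ∈ H)
    (hi : LinearIndependent ℝ v) (c : E) :
    ∃ e : Fin n → E, (∀ i, e i ∈ H) ∧ Orthonormal ℝ e ∧ ∀ i, ⟪c, e i⟫_ℝ = 0 := by
  let W : Submodule ℝ E := Submodule.span ℝ (Set.range v)
  have hWH : W ≤ H := Submodule.span_le.2 (by rintro _ ⟨i, rfl⟩; exact hv i)
  have hfin : FiniteDimensional ℝ W := FiniteDimensional.span_of_finite ℝ (Set.finite_range v)
  have hW : Module.finrank ℝ W = n + 1 := by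
    have := finrank_span_eq_card hi
    rwa [Fintype.card_fin] at this
  let φ : W →ₗ[ℝ] ℝ := (innerₛₗ ℝ c).comp W.subtype
  have hφ : ∀ w : W, φ w = ⟪c, (w : E)⟫_ℝ := fun w => rfl
  have h1 := LinearMap.finrank_range_add_finrank_ker φ
  have h2 : Module.finrank ℝ (LinearMap.range φ) ≤ 1 := by
    have := Submodule.finrank_le (LinearMap.range φ)
    rwa [Module.finrank_self] at this
  have h3 : n ≤ Module.finrank ℝ (LinearMap.ker φ) := by omega
  let b := stdOrthonormalBasis ℝ (LinearMap.ker φ)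
  let g : LinearMap.ker φ →ₗᵢ[ℝ] E := W.subtypeₗᵢ.comp (LinearMap.ker φ).subtypeₗᵢ
  refine ⟨fun i => g (b (Fin.castLE h3 i)), fun i => hWH (b (Fin.castLE h3 i)).1.2, ?_, ?_⟩
  · have h4 := b.orthonormal.comp_linearIsometry g
    exact h4.comp _ (Fin.castLE_injective h3)
  · intro i
    have h4 : φ (b (Fin.castLE h3 i)) = 0 := (b (Fin.castLE h3 i)).2
    rw [hφ] at h4
    exact h4

/-- E9e -/
theorem inf_dim (hs : IsStationary μ) (h2 : Integrable (fun f : MW => f 0 ^ 2) μ)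
    (hcov : ∀ w w' : ℂ, ∫ f : MW, f w * f w' ∂μ = J0 ‖w - w'‖) (n : ℕ) {c : Lp ℝ 2 μ}
    (hc : c ∈ values μ) :
    ∃ e : Fin n → Lp ℝ 2 μ, (∀ i, e i ∈ values μ) ∧ Orthonormal ℝ e ∧ ∀ i, ⟪c, e i⟫_ℝ = 0 := by
  have hN : (0 : ℝ) < 1 / (2 * ((n + 1 : ℕ) : ℝ)) := by positivity
  have h3 := (Metric.tendsto_atTop.1 Pool.Agent.Helper88.Ip.J0_tendsto) _ hN
  obtain ⟨R0, hR0⟩ := h3
  obtain ⟨R, hR⟩ : ∃ R : ℝ, R = max R0 1 := ⟨_, rfl⟩
  have hR1 : 1 ≤ R := hR ▸ le_max_right _ _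
  have hRR : R0 ≤ R := hR ▸ le_max_left _ _
  refine exists_family (values μ) n (fun i => V hs h2 (((i : ℕ) : ℝ) * R : ℝ))
    (fun i => V_mem hs h2 _) (indep_of_gram _ (fun i => ?_) fun i j hij => ?_) c
  · rw [inner_V hs h2 hcov, sub_self, norm_zero, J0_zero]
  · rw [inner_V hs h2 hcov]
    have h4 : ‖((((i : ℕ) : ℝ) * R : ℝ) : ℂ) - ((((j : ℕ) : ℝ) * R : ℝ) : ℂ)‖ =
        |((i : ℕ) : ℝ) - (j : ℕ)| * R := by
      rw [← Complex.ofReal_sub, Complex.norm_real, ← sub_mul, norm_mul, Real.norm_eq_abs,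
        Real.norm_eq_abs, abs_of_pos (by linarith : (0 : ℝ) < R)]
    have h5 : (1 : ℝ) ≤ |((i : ℕ) : ℝ) - (j : ℕ)| := by
      have h6 : ((i : ℕ) : ℤ) ≠ (j : ℕ) := fun h => hij (Fin.ext (by exact_mod_cast h))
      have h7 : (1 : ℤ) ≤ |((i : ℕ) : ℤ) - (j : ℕ)| := Int.one_le_abs (sub_ne_zero.2 h6)
      exact_mod_cast h7
    rw [h4]
    have h8 := hR0 (|((i : ℕ) : ℝ) - (j : ℕ)| * R) (by nlinarith)
    rw [Real.dist_eq, sub_zero] at h8
    exact h8.le

end

end Pool.Agent.Helper38.Er
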