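import Pool.Agent.Helper26.Er.Defs

/-! # Package E9c: equality of laws -/

set_option autoImplicit false
set_option linter.unusedSectionVars false
open MeasureTheory Filter Topology ProbabilityTheory
open scoped ContDiff ENNReal InnerProductSpace

namespace Pool.Agent.Helper38.Er

open Pool.Agent.N661.BR (MW J0 IsStationary)
open Pool.Agent.Helper26.Ip
open Pool.Agent.Helper26.Er
open Complex (I)

noncomputable section

variable {μ : Measure MW} [IsProbabilityMeasure μ]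

theorem coe_sum {n : ℕ} (a : Fin n → Lp ℝ 2 μ) (t : Fin n → ℝ) (s : Finset (Fin n)) :
    (∑ i ∈ s, t i • a i : Lp ℝ 2 μ) =ᵐ[μ] fun f => ∑ i ∈ s, t i * a i f := by
  classical
  induction s using Finset.induction_on with
  | empty =>
    rw [Finset.sum_empty]
    filter_upwards [Lp.coeFn_zero ℝ 2 μ] with f hf
    rw [hf]; simp
  | insert i s hi ih =>
    rw [Finset.sum_insert hi]
    filter_upwards [Lp.coeFn_add (t i • a i) (∑ j ∈ s, t j • a j), Lp.coeFn_smul (t i) (a i), ih]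
      with f h1 h2 h3
    rw [h1, Pi.add_apply, h2, h3, Finset.sum_insert hi]
    rfl

theorem norm_comb {n : ℕ} {a b : Fin n → Lp ℝ 2 μ} (hab : ∀ i j, ⟪a i, a j⟫_ℝ = ⟪b i, b j⟫_ℝ)
    (t : Fin n → ℝ) : ‖∑ i, t i • a i‖ = ‖∑ i, t i • b i‖ := by
  have h : ∀ c : Fin n → Lp ℝ 2 μ, ⟪∑ i, t i • c i, ∑ i, t i • c i⟫_ℝ =
      ∑ i, ∑ j, t i * (t j * ⟪c i, c j⟫_ℝ) := by
    intro c
    rw [sum_inner]
    refine Finset.sum_congr rfl fun i _ => ?_
    rw [inner_sum]
    refine Finset.sum_congr rfl fun j _ => ?_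
    rw [real_inner_smul_left, real_inner_smul_right]
  have h1 : ‖∑ i, t i • a i‖ ^ 2 = ‖∑ i, t i • b i‖ ^ 2 := by
    rw [← real_inner_self_eq_norm_sq, ← real_inner_self_eq_norm_sq, h, h]
    simp only [hab]
  exact (pow_left_inj₀ (norm_nonneg _) (norm_nonneg _) two_ne_zero).1 h1

/-- the joint law -/
def vec {n : ℕ} (a : Fin n → Lp ℝ 2 μ) (f : MW) : EuclideanSpace ℝ (Fin n) :=
  WithLp.toLp 2 fun i => a i f

theorem meas_vec {n : ℕ} (a : Fin n → Lp ℝ 2 μ) : Measurable (vec a) := by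
  unfold vec
  refine (MeasurableEquiv.toLp 2 (Fin n → ℝ)).measurable.comp ?_
  exact measurable_pi_lambda _ fun i => (Lp.stronglyMeasurable (a i)).measurable

theorem charFun_vec {n : ℕ} (a : Fin n → Lp ℝ 2 μ) (t : EuclideanSpace ℝ (Fin n)) :
    charFun (μ.map (vec a)) t = ch (∑ i, t i • a i) := by
  rw [charFun_apply, integral_map (meas_vec a).aemeasurable (by fun_prop)]
  unfold ch
  refine integral_congr_ae ?_
  filter_upwards [coe_sum a t Finset.univ] with f hf
  rw [hf]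
  have h1 : ⟪vec a f, t⟫_ℝ = ∑ i, t i * a i f := by
    rw [PiLp.inner_apply]
    refine Finset.sum_congr rfl fun i _ => ?_
    simp [vec]
  rw [h1, mul_comm]

/-- E9c -/
theorem law_eq (hi : Iso μ) {n : ℕ} {a b : Fin n → Lp ℝ 2 μ} (ha : ∀ i, a i ∈ values μ)
    (hb : ∀ i, b i ∈ values μ) (hab : ∀ i j, ⟪a i, a j⟫_ℝ = ⟪b i, b j⟫_ℝ)
    {F : (Fin n → ℝ) → ℝ≥0∞} (hF : Measurable F) :
    ∫⁻ f, F (fun i => a i f) ∂μ = ∫⁻ f, F (fun i => b i f) ∂μ := by
  have h1 : μ.map (vec a) = μ.map (vec b) := by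
    have _ : IsProbabilityMeasure (μ.map (vec a)) :=
      Measure.isProbabilityMeasure_map (meas_vec a).aemeasurable
    have _ : IsProbabilityMeasure (μ.map (vec b)) :=
      Measure.isProbabilityMeasure_map (meas_vec b).aemeasurable
    refine Measure.ext_of_charFun (funext fun t => ?_)
    rw [charFun_vec, charFun_vec]
    exact hi _ (Submodule.sum_mem _ fun i _ => Submodule.smul_mem _ _ (ha i)) _
      (Submodule.sum_mem _ fun i _ => Submodule.smul_mem _ _ (hb i)) (norm_comb hab _)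
  have hG : Measurable fun v : EuclideanSpace ℝ (Fin n) => F (fun i => v i) :=
    hF.comp (MeasurableEquiv.toLp 2 (Fin n → ℝ)).symm.measurable
  have h2 : ∀ c : Fin n → Lp ℝ 2 μ, ∫⁻ f, F (fun i => c i f) ∂μ =
      ∫⁻ v, F (fun i => v i) ∂(μ.map (vec c)) := by
    intro c
    rw [lintegral_map hG (meas_vec c)]
    rfl
  rw [h2, h2, h1]

end

end Pool.Agent.Helper38.Er
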