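import Pool.Agent.Helper43.Er.X12
import Pool.Graph.R_seed8.R989.Erg2
import Pool.Graph.R_pool_sql_team_seeded_63374d34.N273.BRERG

/-!
# ER package X3: the mean ergodic theorem for `f(0)²` (MP_6b977f_mp)
-/

set_option autoImplicit false
open MeasureTheory Filter Topology ProbabilityTheory
open scoped ENNReal

namespace Pool.Agent.Helper38.Er

open Pool.Agent.N661.BR (MW IsStationary IsErgodic shift meas_eval meas_shift)
open Pool.Agent.Helper37.BC
open Pool.Agent.Helper26.Er
open Pool.Agent.N273.BRERG (co co_meas)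
open Pool.Agent.R989.Erg (sh sh_meas inv inv_le Fld)

variable {μ : Measure MW} [IsProbabilityMeasure μ]

/-- for an ergodic law the conditional expectations on the invariant sets are constants -/
theorem condExp_path (he : IsErgodic μ) (x : (ℂ → ℝ) → ℝ) (hx : Integrable x (μ.map co)) :
    (μ.map co)[x | inv (μ.map co)] =ᵐ[μ.map co] fun _ => ∫ ω, x ω ∂(μ.map co) := by
  have : IsProbabilityMeasure (μ.map co) := Measure.isProbabilityMeasure_map co_meas.aemeasurable
  have h01 : ∀ B : Set (ℂ → ℝ), MeasurableSet[inv (μ.map co)] B →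
      (μ.map co) B = 0 ∨ (μ.map co) B = 1 := by
    intro A hA
    rw [Measure.map_apply co_meas hA.1]
    refine he _ (co_meas hA.1) fun x => ?_
    have h1 : co ⁻¹' (sh x ⁻¹' A) =ᵐ[μ] co ⁻¹' A :=
      (MeasurePreserving.quasiMeasurePreserving ⟨co_meas, rfl⟩).preimage_ae_eq (hA.2 x)
    exact h1
  symm
  refine ae_eq_condExp_of_forall_setIntegral_eq (inv_le _) hx (fun s _ _ => integrableOn_const
    (measure_ne_top _ _)) (fun s hs _ => ?_) aestronglyMeasurable_const
  rcases h01 s hs with h | h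
  · rw [Measure.restrict_eq_zero.2 h, integral_zero_measure, integral_zero_measure]
  · have h2 : (μ.map co).restrict s = μ.map co := by
      apply Measure.restrict_eq_self_of_ae_mem
      rw [ae_iff]
      exact (prob_compl_eq_zero_iff (μ := μ.map co) (inv_le _ s hs)).2 h
    rw [h2, integral_const]
    simp

/-- X3: the mean ergodic theorem for `f(0)²` -/
theorem erg_avg (hs : IsStationary μ) (h2 : Integrable (fun f : MW => f 0 ^ 2) μ)
    (he : IsErgodic μ) : Tendsto (fun t : ℝ => ∫ f : MW,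
      |(∫ z, gw z * f ((t : ℂ) * z) ^ 2) - ∫ g : MW, g 0 ^ 2 ∂μ| ∂μ) atTop (𝓝 0) := by
  have : IsProbabilityMeasure (μ.map co) := Measure.isProbabilityMeasure_map co_meas.aemeasurable
  have hgm : Measurable gw := by
    unfold gw
    fun_prop
  have hjoint : Measurable fun p : MW × ℂ => co p.1 p.2 :=
    meas_ev.comp (measurable_snd.prodMk measurable_fst)
  have hF : Fld μ (μ.map co) co := ⟨hjoint, rfl⟩
  have hμ : ∀ a, MeasurePreserving (sh a) (μ.map co) (μ.map co) := by
    intro a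
    refine ⟨sh_meas a, ?_⟩
    have h1 : (μ.map co).map (sh a) = (μ.map (shift a)).map co := by
      rw [Measure.map_map (sh_meas a) co_meas, Measure.map_map co_meas (meas_shift a)]
      rfl
    rw [h1, hs a]
  set x : (ℂ → ℝ) → ℝ := fun ω => ω 0 ^ 2 with hx
  have hxm : Measurable x := (measurable_pi_apply (0 : ℂ)).pow_const 2
  have hxi : Integrable x (μ.map co) :=
    (integrable_map_measure hxm.aestronglyMeasurable co_meas.aemeasurable).2 h2
  have hxe : ∫ ω, x ω ∂(μ.map co) = ∫ g : MW, g 0 ^ 2 ∂μ :=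
    integral_map co_meas.aemeasurable hxm.aestronglyMeasurable
  have hV : ∀ (t : ℝ) (f : MW), Pool.Agent.R989.Erg.V co gw t x f =
      ∫ z, gw z * f ((t : ℂ) * z) ^ 2 := by
    intro t f
    unfold Pool.Agent.R989.Erg.V
    refine integral_congr_ae (Eventually.of_forall fun z => ?_)
    show gw z * (f (0 + (t : ℂ) * z)) ^ 2 = gw z * f ((t : ℂ) * z) ^ 2
    rw [zero_add]
  have hL := Pool.Agent.R989.Erg.L1 (S := MW) (P := μ) hμ gw hgm
    Pool.Agent.Helper43.Er.gw_int.1 x hxm hxi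
  have hc : ∀ᵐ f ∂μ, ((μ.map co)[x | inv (μ.map co)]) (co f) = ∫ g : MW, g 0 ^ 2 ∂μ := by
    have h1 := condExp_path he x hxi
    rw [hxe] at h1
    exact ae_of_ae_map co_meas.aemeasurable h1
  have hE : ∀ t : ℝ, eLpNorm (fun f => Pool.Agent.R989.Erg.V co gw t x f -
      (∫ z, gw z) * ((μ.map co)[x | inv (μ.map co)]) (co f)) 1 μ =
      ENNReal.ofReal (∫ f : MW, |(∫ z, gw z * f ((t : ℂ) * z) ^ 2) - ∫ g : MW, g 0 ^ 2 ∂μ| ∂μ) ∨
      eLpNorm (fun f => Pool.Agent.R989.Erg.V co gw t x f -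
      (∫ z, gw z) * ((μ.map co)[x | inv (μ.map co)]) (co f)) 1 μ = ∞ := by
    intro t
    have e1 : (fun f => Pool.Agent.R989.Erg.V co gw t x f -
        (∫ z, gw z) * ((μ.map co)[x | inv (μ.map co)]) (co f)) =ᵐ[μ]
        fun f : MW => (∫ z, gw z * f ((t : ℂ) * z) ^ 2) - ∫ g : MW, g 0 ^ 2 ∂μ := by
      filter_upwards [hc] with f hf
      rw [hf, hV, Pool.Agent.Helper43.Er.gw_int.2, one_mul]
    rw [eLpNorm_congr_ae e1]
    have hm : AEStronglyMeasurable
        (fun f : MW => (∫ z, gw z * f ((t : ℂ) * z) ^ 2) - ∫ g : MW, g 0 ^ 2 ∂μ) μ := by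
      have h3 : Measurable (Pool.Agent.R989.Erg.V co gw t x) :=
        Pool.Agent.R989.Erg.V_meas hjoint gw hgm t x hxm
      have h4 : Measurable
          (fun f : MW => (∫ z, gw z * f ((t : ℂ) * z) ^ 2) - ∫ g : MW, g 0 ^ 2 ∂μ) := by
        have h5 : (fun f : MW => (∫ z, gw z * f ((t : ℂ) * z) ^ 2)) =
            Pool.Agent.R989.Erg.V co gw t x := by
          funext f; exact (hV t f).symm
        rw [show (fun f : MW => (∫ z, gw z * f ((t : ℂ) * z) ^ 2) - ∫ g : MW, g 0 ^ 2 ∂μ) =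
          fun f => Pool.Agent.R989.Erg.V co gw t x f - ∫ g : MW, g 0 ^ 2 ∂μ by
            funext f; rw [hV]]
        exact h3.sub_const _
      exact h4.aestronglyMeasurable
    by_cases hfin : eLpNorm (fun f : MW => (∫ z, gw z * f ((t : ℂ) * z) ^ 2) -
        ∫ g : MW, g 0 ^ 2 ∂μ) 1 μ = ∞
    · exact Or.inr hfin
    · left
      have hi : Integrable (fun f : MW => (∫ z, gw z * f ((t : ℂ) * z) ^ 2) -
          ∫ g : MW, g 0 ^ 2 ∂μ) μ := by
        rw [← memLp_one_iff_integrable]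
        exact ⟨hm, lt_top_iff_ne_top.2 hfin⟩
      rw [eLpNorm_one_eq_lintegral_enorm, ← ofReal_integral_norm_eq_lintegral_enorm hi]
      rfl
  rw [Metric.tendsto_atTop]
  intro ε hε
  have h1 := hL (ENNReal.ofReal (ε / 2)) (ENNReal.ofReal_pos.2 (by linarith))
  obtain ⟨N, hN⟩ := eventually_atTop.1 h1
  refine ⟨N, fun t ht => ?_⟩
  have h3 := hN t ht co hF
  have h4 : 0 ≤ ∫ f : MW, |(∫ z, gw z * f ((t : ℂ) * z) ^ 2) - ∫ g : MW, g 0 ^ 2 ∂μ| ∂μ :=
    integral_nonneg fun f => abs_nonneg _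
  rw [Real.dist_eq, sub_zero, abs_of_nonneg h4]
  rcases hE t with h5 | h5
  · rw [h5] at h3
    have := (ENNReal.ofReal_le_ofReal_iff (by linarith)).1 h3
    linarith
  · rw [h5] at h3
    exact absurd h3 (by simp)

end Pool.Agent.Helper38.Er

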